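import Pool.Agent.H586.AF.C

/-!
Haar measure of the small balls of the group of unit quaternions (project AF of helper586).
-/

set_option autoImplicit false

open MeasureTheory Finset
open scoped Quaternion

namespace Pool.Agent.H56.AF

open Pool.Agent.H586.AF

noncomputable section

/-- The square of the norm in coordinates. -/
theorem norm_sq_eq (q : ℍ[ℝ]) : ‖q‖ ^ 2 = q.re ^ 2 + q.imI ^ 2 + q.imJ ^ 2 + q.imK ^ 2 := by
  rw [sq, ← Quaternion.normSq_eq_norm_mul_self, Quaternion.normSq_def']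

/-- The cell of a point of the sphere in the grid of mesh `1 / n`. -/
def cell (n : ℕ) (g : SU) : ℤ × ℤ × ℤ × ℤ :=
  (⌊(g : ℍ[ℝ]).re * n⌋, ⌊(g : ℍ[ℝ]).imI * n⌋, ⌊(g : ℍ[ℝ]).imJ * n⌋, ⌊(g : ℍ[ℝ]).imK * n⌋)

/-- All cells. -/
def cells (n : ℕ) : Finset (ℤ × ℤ × ℤ × ℤ) :=
  Icc (-(n : ℤ)) n ×ˢ (Icc (-(n : ℤ)) n ×ˢ (Icc (-(n : ℤ)) n ×ˢ Icc (-(n : ℤ)) n))

theorem card_cells (n : ℕ) : (cells n).card = (2 * n + 1) ^ 4 := by
  have h : ((n : ℤ) + 1 - -(n : ℤ)).toNat = 2 * n + 1 := by omega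
  rw [cells, card_product, card_product, card_product, Int.card_Icc, h]
  ring

theorem floor_mem (n : ℕ) (x : ℝ) (h : x ^ 2 ≤ 1) : ⌊x * n⌋ ∈ Icc (-(n : ℤ)) n := by
  have h1 : |x| ≤ 1 := by
    rw [← abs_one (α := ℝ)]
    exact sq_le_sq.1 (by simpa using h)
  obtain ⟨h2, h3⟩ := abs_le.1 h1
  have hn : (0 : ℝ) ≤ n := Nat.cast_nonneg n
  rw [mem_Icc]
  constructor
  · rw [Int.le_floor]
    push_cast
    nlinarith
  · have h4 : ((⌊x * n⌋ : ℤ) : ℝ) ≤ ((n : ℤ) : ℝ) := by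
      refine (Int.floor_le _).trans ?_
      push_cast
      nlinarith
    exact_mod_cast h4

theorem cell_mem (n : ℕ) (g : SU) : cell n g ∈ cells n := by
  have h1 : ‖(g : ℍ[ℝ])‖ = 1 := by simp
  have h2 := norm_sq_eq (g : ℍ[ℝ])
  rw [h1] at h2
  simp only [cell, cells, mem_product]
  refine ⟨floor_mem n _ ?_, floor_mem n _ ?_, floor_mem n _ ?_, floor_mem n _ ?_⟩ <;>
  nlinarith [sq_nonneg (g : ℍ[ℝ]).re, sq_nonneg (g : ℍ[ℝ]).imI, sq_nonneg (g : ℍ[ℝ]).imJ,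
    sq_nonneg (g : ℍ[ℝ]).imK]

theorem diff_sq (n : ℕ) (hn : 0 < n) (x y : ℝ) (h : ⌊x * n⌋ = ⌊y * n⌋) :
    (x - y) ^ 2 ≤ (1 / (n : ℝ)) ^ 2 := by
  have hn' : (0 : ℝ) < n := by exact_mod_cast hn
  have h1 : |x * n - y * n| < 1 := Int.abs_sub_lt_one_of_floor_eq_floor h
  have h2 : |x - y| * n < 1 := by
    rw [← sub_mul, abs_mul, abs_of_pos hn'] at h1
    exact h1
  have h3 : |x - y| ≤ 1 / n := by
    rw [le_div_iff₀ hn']
    exact h2.le
  rw [← sq_abs]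
  exact pow_le_pow_left₀ (abs_nonneg _) h3 2

theorem dist_cell (n : ℕ) (hn : 0 < n) (r : ℝ) (hr : 0 < r) (hnr : 2 / r ≤ n) (g h : SU)
    (hc : cell n g = cell n h) : ‖(g : ℍ[ℝ]) - h‖ ≤ r := by
  have hn' : (0 : ℝ) < n := by exact_mod_cast hn
  simp only [cell, Prod.mk.injEq] at hc
  obtain ⟨c1, c2, c3, c4⟩ := hc
  have d1 := diff_sq n hn _ _ c1
  have d2 := diff_sq n hn _ _ c2
  have d3 := diff_sq n hn _ _ c3
  have d4 := diff_sq n hn _ _ c4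
  have h1 : 1 / (n : ℝ) ≤ r / 2 := by
    rw [div_le_iff₀ hr] at hnr
    rw [div_le_iff₀ hn']
    linarith
  have h2 : (1 / (n : ℝ)) ^ 2 ≤ (r / 2) ^ 2 := pow_le_pow_left₀ (by positivity) h1 2
  have h3 := norm_sq_eq ((g : ℍ[ℝ]) - h)
  simp only [Quaternion.re_sub, Quaternion.imI_sub, Quaternion.imJ_sub, Quaternion.imK_sub] at h3
  have h4 : ‖(g : ℍ[ℝ]) - h‖ ^ 2 ≤ r ^ 2 := by
    rw [h3]
    nlinarith
  exact (sq_le_sq₀ (norm_nonneg _) hr.le).1 h4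

theorem thb : S_HB := by
  refine ⟨1 / 2401, by norm_num, ?_⟩
  intro μ _ _ r hr hr1
  set B : Set SU := {g : SU | ‖(g : ℍ[ℝ]) - 1‖ ≤ r} with hB
  obtain ⟨n, hn1, hn2⟩ : ∃ n : ℕ, 2 / r ≤ n ∧ (n : ℝ) < 2 / r + 1 :=
    ⟨⌈2 / r⌉₊, Nat.le_ceil _, Nat.ceil_lt_add_one (by positivity)⟩
  have hn : 0 < n := by
    have : (0 : ℝ) < n := lt_of_lt_of_le (by positivity) hn1
    exact_mod_cast this
  have hA : ∀ q, μ {g : SU | cell n g = q} ≤ μ B := by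
    intro q
    rcases Set.eq_empty_or_nonempty {g : SU | cell n g = q} with h | ⟨g₀, hg₀⟩
    · rw [h, measure_empty]
      exact bot_le
    · have h1 : {g : SU | cell n g = q} ⊆ (fun g => g₀⁻¹ * g) ⁻¹' B := by
        intro g hg
        have h2 : ‖(g : ℍ[ℝ]) - g₀‖ ≤ r := dist_cell n hn r hr hn1 g g₀ (hg.trans hg₀.symm)
        show ‖((g₀⁻¹ * g : SU) : ℍ[ℝ]) - 1‖ ≤ r
        have hne : (g₀ : ℍ[ℝ]) ≠ 0 := by
          intro h0
          have : ‖(g₀ : ℍ[ℝ])‖ = 1 := by simp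
          rw [h0, norm_zero] at this
          exact zero_ne_one this
        have hno : ‖(g₀ : ℍ[ℝ])‖ = 1 := by simp
        have h3 : ((g₀⁻¹ * g : SU) : ℍ[ℝ]) - 1 = (g₀ : ℍ[ℝ])⁻¹ * ((g : ℍ[ℝ]) - g₀) := by
          rw [Metric.unitSphere.coe_mul, Metric.unitSphere.coe_inv, mul_sub, inv_mul_cancel₀ hne]
        rw [h3, norm_mul, norm_inv, hno, inv_one, one_mul]
        exact h2
      calc μ {g : SU | cell n g = q} ≤ μ ((fun g => g₀⁻¹ * g) ⁻¹' B) := measure_mono h1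
        _ = μ B := measure_preimage_mul μ g₀⁻¹ B
  have h1 : (1 : ENNReal) ≤ ((cells n).card : ENNReal) * μ B := by
    have h2 : (Set.univ : Set SU) ⊆ ⋃ q ∈ cells n, {g : SU | cell n g = q} := by
      intro g _
      exact Set.mem_biUnion (cell_mem n g) (show cell n g = cell n g from rfl)
    calc (1 : ENNReal) = μ Set.univ := (measure_univ).symm
      _ ≤ μ (⋃ q ∈ cells n, {g : SU | cell n g = q}) := measure_mono h2
      _ ≤ ∑ q ∈ cells n, μ {g : SU | cell n g = q} := measure_biUnion_finset_le _ _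
      _ ≤ ∑ _q ∈ cells n, μ B := Finset.sum_le_sum fun q _ => hA q
      _ = ((cells n).card : ENNReal) * μ B := by rw [Finset.sum_const, nsmul_eq_mul]
  have h2 : (1 : ℝ) ≤ (((2 * n + 1) ^ 4 : ℕ) : ℝ) * μ.real B := by
    rw [card_cells] at h1
    have h3 := ENNReal.toReal_mono (by
      exact ENNReal.mul_ne_top (ENNReal.natCast_ne_top _) (measure_ne_top μ B)) h1
    rw [ENNReal.toReal_mul, ENNReal.toReal_natCast, ENNReal.toReal_one] at h3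
    exact h3
  have h3 : ((((2 * n + 1) ^ 4 : ℕ) : ℝ)) ≤ (7 / r) ^ 4 := by
    push_cast
    refine pow_le_pow_left₀ (by positivity) ?_ 4
    have h4 : (1 : ℝ) ≤ 1 / r := by
      rw [le_div_iff₀ hr]; linarith
    have h5 : (7 : ℝ) / r = 2 * (2 / r) + 3 * (1 / r) := by ring
    rw [h5]
    linarith
  have h4 : (1 : ℝ) ≤ (7 / r) ^ 4 * μ.real B :=
    h2.trans (mul_le_mul_of_nonneg_right h3 measureReal_nonneg)
  have h5 : (7 / r) ^ 4 * r ^ 4 = 2401 := by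
    rw [← mul_pow, div_mul_cancel₀ _ hr.ne']
    norm_num
  have h6 : r ^ 4 * 1 ≤ r ^ 4 * ((7 / r) ^ 4 * μ.real B) :=
    mul_le_mul_of_nonneg_left h4 (by positivity)
  have h7 : r ^ 4 * ((7 / r) ^ 4 * μ.real B) = 2401 * μ.real B := by
    rw [← h5]; ring
  rw [h7] at h6
  linarith

end

end Pool.Agent.H56.AF
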